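import Pool.Agent.HL.AllR

/-!
# MP_6c4da4_ag: the numerical part of the Chow groups is quantized, and more than half is everything

`T : ChowTheory V` are the Chow groups with rational coefficients of the smooth projective varieties
over a finite field, with their usual formal properties, `Mot T` is the category of Chow motives
(triples `(X, p, m)`), `K` is a cohomology theory for which the trace formula, the Kuenneth formula
and the theorem on the absolute values of the eigenvalues of Frobenius hold (`l`-adic cohomology).
No conjecture is assumed.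

`N(X, i) = T.N X i` is the dimension of `CH^i(X)` modulo numerical equivalence, `M(X, i) = K.M X i`
the (algebraic) multiplicity of the eigenvalue `q ^ i` of Frobenius on `H(X)`; `N ≤ M`, and the strong
Tate conjecture says `N = M`. For a variety `X` of dimension `d` let `N_r`, `M_r`, `R_r` be `N`, `M`
and the dimension of the Chow group itself for `X^r × X^r` in codimension `r d` (`T.NN X r`,
`K.MM X r`, `T.RR X r`; if the Chow group has infinite dimension then `R_r = 0` and
`N_r / R_r = 0`).

(1) One variety `X`, `H(X) ≠ 0`. The ratio `N_r / M_r` converges, the limit `L` is `0` or `1 / n` for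
a natural number `n ≥ 1`, and `L ≤ N_r / M_r` for all `r`. If `L > 1 / 2`, the strong Tate conjecture
holds for all powers `X^r` in all codimensions `i` with `N(X^r, i) ≠ 0`. The ratio `N_r / R_r`
converges, the limit `L'` is `0` or `1 / n` for a natural number `n ≥ 1`, and `L' ≤ N_r / R_r` for all
`r`. If `L' > 1 / 2`, rational and numerical equivalence agree on all powers `X^r` in all codimensions
`i` with `N(X^r, i) ≠ 0`.

(2) Rational and numerical equivalence agree for all varieties if and only if for every `X` with
`H(X) ≠ 0` there is `c > 1/2` with `c ≤ N_r / R_r` for infinitely many `r`; and then the category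
`Mot T` is abelian.

(3) The category `Mot T` is abelian and the strong Tate conjecture holds, if and only if for every
`X` with `H(X) ≠ 0` there are `c, c' > 1/2` with `c ≤ N_r / M_r` for infinitely many `r` and
`c' ≤ N_r / R_r` for infinitely many `r`.

Method.  Let `C` be the category of numerical motives (semisimple, Jannsen), `G_r = h(X^r) ⊗ h(X^r)ᵛ`,
so that `N_r = dim Hom(1, G_r)`, and `b(S)` the number of Frobenius eigenvalues of `S`. Then
`N_(r+1) / N_r` is monotone and converges to `b(X) ^ 2` (a Cauchy-Schwarz inequality and the growth of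
`N_r`, which is at least `b(X) ^ (2 r)` up to a polynomial), and therefore
`dim Hom(1, R ⊗ G_r) / N_r → b(R)` for every direct summand `R` of some `G_k`. Let `S_1, S_2, ...` be
the simple objects all of whose Frobenius eigenvalues are `1` which occur in the `G_k`. Then
`M_r / N_r` converges to the sum of the `b(S_i) ^ 2 / dim End(S_i)`. Each term is a natural number:
Frobenius is the identity on `S_i`, so `End(S_i)` is a separable division algebra, its separability
element splits `S_i ⊗ S_iᵛ` over `End(S_i)`, and the rank of the summand of the invariants is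
`b(S_i) ^ 2 / dim End(S_i)`. Similarly, if all numerically trivial endomorphisms of the `h(X^k)` are
nilpotent, `R_r / N_r` converges to the sum of the `b(S) * dim CH(Y_S) / dim End(S)` over all simple
`S` in the `G_k`, `Y_S` the lift of `S` to a Chow motive and `CH(Y_S) = Hom(1, Y_S)`; the terms are
natural numbers because `End(Y_S)` is local with residue algebra `End(S)`, and the term of `S = 1`
is at least `1`. If they are not all nilpotent, `R_r` grows like `(b(X) ^ k + 1) ^ (2 r / k)` or is
infinite, and the ratio tends to `0`.
-/

set_option autoImplicit false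

open CategoryTheory MonoidalCategory CHS

universe v u w x

namespace Pool.Agent.HL.Kept.HalfLaw

variable {V : Type u} [Category.{v} V] [CartesianMonoidalCategory V]

theorem result {T : ChowTheory.{v, u, w} V} (K : Cohomology.{v, u, w, x} T) :
    (∀ (X : V) (i : ℤ), T.numRank (T.cyc X i) = (T.N X i : ℕ) ∧ T.N X i ≤ K.M X i) ∧
    (∀ X : V, K.B X ≠ 0 → ∃ L L' : ℝ,
      Quantized (fun r => (T.NN X r : ℝ) / K.MM X r) L ∧
      Quantized (fun r => (T.NN X r : ℝ) / T.RR X r) L' ∧
      (1 / 2 < L → ∀ (r : ℕ) (i : ℤ), T.N (pow X r) i ≠ 0 → T.N (pow X r) i = K.M (pow X r) i) ∧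
      (1 / 2 < L' → ∀ (r : ℕ) (i : ℤ), T.N (pow X r) i ≠ 0 → ∀ a ∈ T.cyc (pow X r) i,
        T.NumTrivial a → a = 0)) ∧
    ((∀ (X : V) (a : T.CH X), T.NumTrivial a → a = 0) ↔
      ∀ X : V, K.B X ≠ 0 → MoreThanHalf fun r => (T.NN X r : ℝ) / T.RR X r) ∧
    ((∀ (X : V) (a : T.CH X), T.NumTrivial a → a = 0) → IsAbelian (Mot T)) ∧
    ((IsAbelian (Mot T) ∧ ∀ (X : V) (i : ℤ), T.N X i = K.M X i) ↔
      ∀ X : V, K.B X ≠ 0 → MoreThanHalf (fun r => (T.NN X r : ℝ) / K.MM X r) ∧
        MoreThanHalf fun r => (T.NN X r : ℝ) / T.RR X r) :=
  K.ranks (MotP.HL.a_NHA T.toOld) (MotP.HL.a_NFX T.toOld) (MotP.HL.a_NFY T.toOld)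
    (MotP.HL.a_NFZ T.toOld) (MotP.HL.a_NHZ T.toOld) (MotP.HL.a_NQU T.toOld)
    (MotP.HL.a_RQV T.toOld) (MotP.HL.t_RCW2 T.toOld)

end Pool.Agent.HL.Kept.HalfLaw
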