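import Pool.Agent.HL.WlR

/-!
# MP_cb388a_ag: finite generation is equivalent to two inequalities for ranks of Chow groups

`T : ChowTheory V` are the Chow groups with rational coefficients of the smooth projective varieties
over a finite field, `K` is a cohomology theory for which the trace formula, the Kuenneth formula
and the theorem on the absolute values of the eigenvalues of Frobenius hold (`l`-adic cohomology).
For a variety `X` of dimension `d` let `R_r` be the dimension of `CH^(r d)(X^r × X^r)`, `N_r` its
dimension modulo numerical equivalence, and `M_r` the (algebraic) multiplicity of the eigenvalue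
`q ^ (r d)` of Frobenius on `H(X^r × X^r)` (`T.RR X r`, `T.NN X r`, `K.MM X r`; if the Chow group has
infinite dimension then `R_r = 0` and `N_r / R_r = 0`).

`G : WeilCoh K` is a class of smooth projective varieties (`G.v X` for `X : G.U`) which contains the
point and the products, for example all of them, with Weil-etale motivic cohomology and `l`-adic
cohomology `G.coh X` for all `l`, cycle classes, intersection numbers, and the action of
correspondences. `(G.coh X).L n` says that the groups `H^i_W(X, ℤ(n))` are finitely generated.

(1) Suppose that there is `c > 1/2` with `c ≤ N_r / M_r` for infinitely many `r`. Then `L^n(Y)` holds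
for all `n` and all powers `Y` of `X` for which the numerically trivial correspondences in
`CH^(dim Y)(Y × Y)` are nilpotent.

(2) `L^n(Y)` holds for all `n` and all powers `Y` of `X` if and only if there are `c, c' > 1/2` with
`c ≤ N_r / M_r` for infinitely many `r` and `c' ≤ N_r / R_r` for infinitely many `r`.

(3) `L^n(X)` holds for all `n` and all `X` in the class if and only if all `X` satisfy these two
inequalities. No conjecture is assumed.

Method.  Let `C` be the category of numerical motives (semisimple, Jannsen), `G_r = h(X^r) ⊗ h(X^r)ᵛ`,
so that `N_r = dim Hom(1, G_r)`, and `b(S)` the number of Frobenius eigenvalues of `S`. Then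
`N_(r+1) / N_r` is monotone and converges to `b(X) ^ 2` (a Cauchy-Schwarz inequality and the growth of
`N_r`, which is at least `b(X) ^ (2 r)` up to a polynomial), and therefore
`dim Hom(1, R ⊗ G_r) / N_r → b(R)` for every direct summand `R` of some `G_k`. Let `S_1, S_2, ...` be
the simple objects all of whose Frobenius eigenvalues are `1` which occur in the `G_k`. Then
`M_r / N_r` converges to the sum of the `b(S_i) ^ 2 / dim End(S_i)`. Each term is a natural number:
Frobenius is the identity on `S_i`, so `End(S_i)` is a separable division algebra, its separability
element splits `S_i ⊗ S_iᵛ` over `End(S_i)`, and the rank of the summand of the invariants is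
`b(S_i) ^ 2 / dim End(S_i)`. So the limit of `N_r / M_r` is `0` or `1 / n`, it is at most every term,
and if it is greater than `1/2` then `N_r = M_r` for all `r`. In the same way, if all numerically
trivial endomorphisms of the `h(X^k)` are nilpotent, `R_r / N_r` converges to the sum of the natural
numbers `b(S) * dim CH(Y_S) / dim End(S)` over all simple `S` in the `G_k`, `Y_S` the lift of `S` to a
Chow motive, and otherwise `R_r` grows faster than `N_r`; so `N_r / R_r` has a limit which is `0` or
`1 / n`, and if it is greater than `1/2` then rational and numerical equivalence agree on the powers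
of `X`. Both together give `L^n` for the powers of `X`, and conversely.
-/

set_option autoImplicit false

open CategoryTheory MonoidalCategory CHS

universe x

namespace Pool.Agent.HL.Kept.HalfLawWeil

variable {V : Type} [Category.{0} V] [CartesianMonoidalCategory V]

theorem result {T : ChowTheory.{0, 0, 0} V} {K : Cohomology.{0, 0, 0, x} T} (G : WeilCoh K) :
    (∀ X : G.U, MoreThanHalf (fun r => (T.NN (G.v X) r : ℝ) / K.MM (G.v X) r) →
      ∀ (Y : G.U) (r : ℕ), Nonempty (G.v Y ≅ pow (G.v X) r) →
        (∀ f ∈ T.cyc (G.v Y ⊗ G.v Y) (T.dim (G.v Y)), T.NumTrivial f →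
          ∃ n, (T.cp f)^[n] f = 0) → ∀ n, (G.coh Y).L n) ∧
    (∀ X : G.U, (∀ (Y : G.U) (r : ℕ), Nonempty (G.v Y ≅ pow (G.v X) r) →
      ∀ n, (G.coh Y).L n) ↔ MoreThanHalf (fun r => (T.NN (G.v X) r : ℝ) / K.MM (G.v X) r) ∧
        MoreThanHalf fun r => (T.NN (G.v X) r : ℝ) / T.RR (G.v X) r) ∧
    ((∀ (X : G.U) (n : ℕ), (G.coh X).L n) ↔
      ∀ X : G.U, MoreThanHalf (fun r => (T.NN (G.v X) r : ℝ) / K.MM (G.v X) r) ∧
        MoreThanHalf fun r => (T.NN (G.v X) r : ℝ) / T.RR (G.v X) r) :=
  G.ranks

end Pool.Agent.HL.Kept.HalfLawWeil
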